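import Pool.Agent.H10.GM.Targets1

/-!
# Row SEG of the board gm_modules: disjoint paths which meet disjoint connected sets in order
-/

set_option autoImplicit false

namespace Pool.Agent.H33.GM

open Pool.Agent.H55.GW Pool.Agent.H10.GM

/-- a subpath is connected -/
theorem seg_walk {V : Type} {E : V → V → Prop} {P : ℕ → V} {n a : ℕ} {S : Set V}
    (hP : ∀ t < n, E (P t) (P (t + 1))) (k : ℕ) (hk : a + k ≤ n)
    (hS : ∀ t, a ≤ t → t ≤ a + k → P t ∈ S) : RIn E S (P a) (P (a + k)) := by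
  induction k with
  | zero => exact RIn.refl (hS a le_rfl le_rfl)
  | succ k ih =>
    have h1 := ih (by omega) (fun t h1 h2 => hS t h1 (by omega))
    have h2 := hP (a + k) (by omega)
    exact h1.tail h2 (hS (a + k + 1) (by omega) (by omega))

theorem pf_SEG : T_SEG := by
  classical
  intro N d V E hE P len Vt hP hdj hcn hVd hmeet hord
  -- the first position in the set `n`
  have hmeet' : ∀ (j : Fin N) (n : ℕ), ∃ t, n < d → (t ≤ len j ∧ P j t ∈ Vt n ∧
      ∀ s, s < t → P j s ∉ Vt n) := by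
    intro j n
    by_cases hn : n < d
    · have hex : ∃ t, t ≤ len j ∧ P j t ∈ Vt n := hmeet n hn j
      refine ⟨Nat.find hex, fun _ => ⟨(Nat.find_spec hex).1, (Nat.find_spec hex).2, ?_⟩⟩
      intro s hs hsV
      exact Nat.find_min hex hs ⟨(le_of_lt hs).trans (Nat.find_spec hex).1, hsV⟩
    · exact ⟨0, fun h => absurd h hn⟩
  choose a ha using hmeet'
  have hal : ∀ (j : Fin N) (n : ℕ), n < d → a j n ≤ len j := fun j n hn => (ha j n hn).1
  have haV : ∀ (j : Fin N) (n : ℕ), n < d → P j (a j n) ∈ Vt n := fun j n hn => (ha j n hn).2.1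
  have ham : ∀ (j : Fin N) (n : ℕ), n < d → ∀ s, P j s ∈ Vt n → a j n ≤ s := by
    intro j n hn s hs
    by_contra h
    exact (ha j n hn).2.2 s (by omega) hs
  have hlt : ∀ (j : Fin N) (n n' : ℕ), n < n' → n' < d → a j n < a j n' := by
    intro j n n' hn hn'
    exact hord n n' hn hn' j _ (hal j n (by omega)) _ (hal j n' hn') (haV j n (by omega))
      (haV j n' hn')
  set S : Fin N → ℕ → Set V := fun j n =>
    {v | ∃ t, a j n ≤ t ∧ t ≤ len j ∧ (n + 1 < d → t < a j (n + 1)) ∧ P j t = v} with hS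
  have hSa : ∀ (j : Fin N) (n : ℕ), n < d → P j (a j n) ∈ S j n := by
    intro j n hn
    exact ⟨a j n, le_rfl, hal j n hn, fun h => hlt j n (n + 1) (by omega) h, rfl⟩
  have hScn : ∀ (j : Fin N) (n : ℕ), n < d → Cn E (S j n) := by
    intro j n hn
    refine Cn.of_root hE (hSa j n hn) ?_
    rintro y ⟨t, h1, h2, h3, rfl⟩
    obtain ⟨k, rfl⟩ := Nat.exists_eq_add_of_le h1
    refine seg_walk (hP j).1 k h2 ?_
    intro s hs1 hs2
    exact ⟨s, hs1, hs2.trans h2, fun h => lt_of_le_of_lt hs2 (h3 h), rfl⟩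
  have hSdj : ∀ (j j' : Fin N), j ≠ j' → ∀ n n', Disjoint (S j n) (S j' n') := by
    intro j j' hj n n'
    rw [Set.disjoint_left]
    rintro v ⟨t, _, h2, _, rfl⟩ ⟨t', _, h2', _, h4⟩
    exact hdj j j' hj t h2 t' h2' h4.symm
  have hSlt : ∀ (j : Fin N) (n n' : ℕ), n < n' → n' < d → Disjoint (S j n) (S j n') := by
    intro j n n' hn hn'
    rw [Set.disjoint_left]
    rintro v ⟨t, _, h2, h3, rfl⟩ ⟨t', h1', h2', _, h4⟩
    have h5 : t' = t := (hP j).2 t' h2' t h2 h4
    have h6 : t < a j (n + 1) := h3 (by omega)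
    have h7 : a j (n + 1) ≤ a j n' := by
      rcases Nat.eq_or_lt_of_le (show n + 1 ≤ n' by omega) with h | h
      · rw [h]
      · exact le_of_lt (hlt j (n + 1) n' h hn')
    omega
  have hSS : ∀ (j j' : Fin N) (n n' : ℕ), n < d → n' < d → n ≠ n' →
      Disjoint (S j n) (S j' n') := by
    intro j j' n n' hn hn' hne
    by_cases hj : j = j'
    · subst hj
      rcases Nat.lt_or_gt_of_ne hne with h | h
      · exact hSlt j n n' h hn'
      · exact (hSlt j n' n h hn).symm
    · exact hSdj j j' hj n n'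
  -- a vertex of the path `j` in the set `m` lies in `S j m`
  have hVS : ∀ (j : Fin N) (m : ℕ), m < d → ∀ t ≤ len j, P j t ∈ Vt m → P j t ∈ S j m := by
    intro j m hm t ht htV
    refine ⟨t, ham j m hm t htV, ht, ?_, rfl⟩
    intro h
    exact hord m (m + 1) (by omega) h j t ht _ (hal j (m + 1) h) htV (haV j (m + 1) h)
  have hSV : ∀ (j : Fin N) (n m : ℕ), n < d → m < d → n ≠ m → Disjoint (S j n) (Vt m) := by
    intro j n m hn hm hne
    rw [Set.disjoint_left]
    intro v hv hvV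
    obtain ⟨t, h1, h2, h3, h4⟩ := id hv
    rw [← h4] at hvV
    have h5 := hVS j m hm t h2 hvV
    rw [h4] at h5
    exact Set.disjoint_left.1 (hSS j j n m hn hm hne) hv h5
  refine ⟨S, fun n => Vt n ∪ ⋃ j, S j n, ?_⟩
  refine ⟨hScn, ?_, ?_, ?_, ?_, ?_⟩
  · intro n hn
    refine Cn.iUnion hE (hcn n hn) (fun j => hScn j n hn) ?_
    intro j
    exact Or.inl ⟨P j (a j n), haV j n hn, hSa j n hn⟩
  · intro j n hn
    exact (Set.subset_iUnion (fun j => S j n) j).trans Set.subset_union_right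
  · intro j j' hj n hn
    exact hSdj j j' hj n n
  · intro n hn n' hn' hne
    rw [Set.disjoint_left]
    intro v hv hv'
    simp only [Set.mem_union, Set.mem_iUnion] at hv hv'
    rcases hv with hv | ⟨j, hv⟩
    · rcases hv' with hv' | ⟨j', hv'⟩
      · exact Set.disjoint_left.1 (hVd n hn n' hn' hne) hv hv'
      · exact Set.disjoint_left.1 (hSV j' n' n hn' hn (Ne.symm hne)) hv' hv
    · rcases hv' with hv' | ⟨j', hv'⟩
      · exact Set.disjoint_left.1 (hSV j n n' hn hn' hne) hv hv'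
      · exact Set.disjoint_left.1 (hSS j j' n n' hn hn' hne) hv hv'
  · intro j n hn
    have h1 := hlt j n (n + 1) (by omega) hn
    have h2 := hal j (n + 1) hn
    refine ⟨P j (a j (n + 1) - 1), ⟨a j (n + 1) - 1, by omega, by omega, fun _ => by omega, rfl⟩,
      P j (a j (n + 1)), hSa j (n + 1) hn, ?_⟩
    have h3 := (hP j).1 (a j (n + 1) - 1) (by omega)
    rwa [Nat.sub_add_cancel (by omega)] at h3

end Pool.Agent.H33.GM
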